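import Pool.Agent.Work.MP_db9399_sx.Pre

/-!
# MP_db9399, all scales: pieces of type K with reserved vertices (owner helper1)

`Ys` = pieces of type K (spots), everything outside is coloured (`cc`, `t`), nothing is prescribed
(`UH = ∅`, `EH = ⊥`). `U` = reserved vertices of the short spots (light, few in every spot), `cR y` =
own colour of `y ∈ U`: no neighbour outside the spots has this own colour. For all other colours few
vertices of a short spot are blocked.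

MIDR (edges between light vertices of different spots, SSE3 protects `cR`), then PROM: all inner
edges at the vertices of `U` are coloured, one vertex after the other (Hall), now the spots are
`Y \ U` and the vertices of `U` are vertices outside the spots; the parities are prepared by the
choice of the missing colours. Then FINR (VMIX, FIN) with `Fy (Y \ U) = cR (Y ∩ U)`.
-/

set_option autoImplicit false

namespace Pool.Agent.Work.MP_db9399_kr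

open Finset Classical
open Pool.Agent.Work.MP_db9399_all (nb)
open Pool.Agent.Work.MP_db9399_dn (IsMat Tot)
open Pool.Agent.Work.MP_db9399_bg (HPre)
open Pool.Agent.Work.MP_db9399_sl (InS Same Gout Gss Gin Gex Out)
open Pool.Agent.Work.MP_db9399_sw (shs avl Gxh Grh Lgt)
open Pool.Agent.Work.MP_db9399_sx (Grp)

universe u

section defs
variable {V : Type u} [Fintype V] {k : ℕ}

/-- the spots without the reserved vertices -/
noncomputable def Ys2 (Ys : Finset (Finset V)) (U : Finset V) : Finset (Finset V) :=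
  Ys.image (fun Y => Y \ U)

/-- own colours outside the new spots -/
noncomputable def cc2 (U : Finset V) (cR cc : V → Fin k) : V → Fin k :=
  fun v => if v ∈ U then cR v else cc v

/-- own colours of the reserved vertices of the spot `Y`, `Y' = Y \ U` -/
noncomputable def FyR (Ys : Finset (Finset V)) (U : Finset V) (cR : V → Fin k)
    (Y' : Finset V) : Finset (Fin k) :=
  (U.filter (fun y => ∃ Y ∈ Ys, y ∈ Y ∧ Y \ U = Y')).image cR

/-- sizes of the spots -/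
structure SpR (θ η : ℝ) (G : SimpleGraph V) (d : ℕ) (Ys : Finset (Finset V)) : Prop where
  deg : ∀ v, (nb G v).card ≤ d
  dis : ∀ Y ∈ Ys, ∀ Y' ∈ Ys, Y ≠ Y' → Disjoint Y Y'
  low : ∀ Y ∈ Ys, (1 - θ) * d ≤ (Y.card : ℝ)
  upp : ∀ Y ∈ Ys, (Y.card : ℝ) ≤ (1 + θ) * d
  din : ∀ Y ∈ Ys, ∀ v ∈ Y, (1 - θ) * d ≤ ((nb G v ∩ Y).card : ℝ)
  inn : ∀ Y ∈ Ys, ∀ v ∈ Y, ((Y \ nb G v).card : ℝ) ≤ θ * d
  sum : ∀ Y ∈ Ys, ∑ v ∈ Y, ((d : ℝ) - (nb G v ∩ Y).card) ≤ η * d * Y.card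

/-- Reserved vertices. `E v` = colours at the spot vertex `v`. `Ub`: colours which are not reserved in
`Y` are own colours of few reserved neighbours in other spots. -/
structure RsQ (η' e : ℝ) (G : SimpleGraph V) (d : ℕ) (Ys : Finset (Finset V)) (U : Finset V)
    (cR cc : V → Fin k) (E : V → Finset (Fin k)) (K0 : Finset (Fin k)) : Prop where
  UY : ∀ y ∈ U, ∃ Y ∈ shs d Ys, y ∈ Y
  Uc : ∀ Y ∈ Ys, ((Y ∩ U).card : ℝ) ≤ η' * d
  Ui : ∀ Y ∈ Ys, ∀ y ∈ Y ∩ U, ∀ y' ∈ Y ∩ U, cR y = cR y' → y = y'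
  Ua : ∀ y ∈ U, ∀ y' ∈ U, G.Adj y y' → cR y ≠ cR y'
  Uk : ∀ y ∈ U, cR y ∈ K0
  Uf : ∀ y ∈ U, cR y ∉ E y
  Uo : ∀ y ∈ U, ∀ w, ¬ InS Ys w → G.Adj y w → cc w ≠ cR y
  Ub : ∀ Y ∈ shs d Ys, ∀ b, (∀ y ∈ Y ∩ U, cR y ≠ b) →
    ((∑ y ∈ U.filter (fun y => y ∉ Y ∧ cR y = b), (nb G y ∩ Y).card : ℕ) : ℝ) ≤ e * d

/-- Own colours outside the spots, see `xq.OwnQ`. -/
structure OwnR (ζ τ e : ℝ) (G : SimpleGraph V) (d : ℕ) (Ys : Finset (Finset V)) (U : Finset V)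
    (cR cc : V → Fin k) : Prop where
  abs : ∀ Y ∈ Ys, ∀ w, ¬ InS Ys w → ζ * d ≤ ((Y \ nb G w).card : ℝ)
  dif : ∀ Y ∈ shs d Ys, ∀ w w', ¬ InS Ys w → ¬ InS Ys w' → w ≠ w' →
    τ * d ≤ ((nb G w ∩ Y).card : ℝ) → τ * d ≤ ((nb G w' ∩ Y).card : ℝ) → cc w ≠ cc w'
  non : ∀ Y ∈ shs d Ys, ∀ b, (∀ y ∈ Y ∩ U, cR y ≠ b) →
    ((∑ w ∈ univ.filter (fun w => ¬ InS Ys w ∧ cc w = b ∧
      ((nb G w ∩ Y).card : ℝ) < τ * d), (nb G w ∩ Y).card : ℕ) : ℝ) ≤ e * d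

end defs

/-- STAR (pure combinatorics): the edges at one vertex `u` to the set `A`, colours `B`, `|A| = |B|`,
`L y` = allowed colours; minimum degrees at least half: perfect matching by Hall. -/
def Stmt_STAR : Prop :=
  ∀ {V : Type u} {D : Type} [Nonempty D] (A : Finset V) (B : Finset D) (L : V → Finset D),
    A.card = B.card →
    (∀ y ∈ A, B.card ≤ 2 * (B ∩ L y).card) →
    (∀ b ∈ B, A.card ≤ 2 * (A.filter (fun y => b ∈ L y)).card) →
    ∃ f : V → D, (∀ y ∈ A, f y ∈ B ∧ f y ∈ L y) ∧ Set.InjOn f A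

/-- PROM1: one short spot. `E v` = colours at `v ∈ Y` (outer edges), `U ⊆ Y` few vertices with own
colours `cR`, different. All edges of `Y` at the vertices of `U` are coloured with colours of `K0`:
`s u v` (`u ∈ U`, `v ∈ Y`, symmetric on `U`), every `u ∈ U` misses exactly one colour outside `E u`,
`cR u`; vertices outside `Z` avoid the palette of their third; parities: at least `|U|` colours
outside `cR U` are missing at an odd number of vertices of `Y \ U`.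
PROOF. `N b` = number of `v ∈ Y` with `b ∉ E v`. First choose different missing colours `m u ∉ E u`,
`m u ∉ cR U`, `u ∈ U`: all with `N b` even if there are at least `(θ + 2 η') d + 2` such colours
outside `cR U` (case A), otherwise arbitrary (case B). Then the vertices `u` one after the other:
`A` = neighbours of `u` in `Y` with `uv` not yet coloured, `B = K0 \ (E u ∪ {cR u, m u} ∪ colours
already used at `u`)`, `|A| = |B|` (`Ed`), `L v` = all colours not in `E v`, not yet used at `v`, not in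
`C (p v)` (`v ∉ Z`), and not `cR v`, `m v` for `v ∈ U`: STAR (degrees at least
`|A| - (π + 2 θ + 2 η' + ..) d` resp. `|A| - (1 / 3 + 3 δ + 2 η' + ..) d`). Parities: for `b ∉ cR U` the
number of `v ∈ Y \ U` where `b` is missing at the end is `N b + #{u : m u = b}` modulo 2 (every
`u` with `b ∉ E u`, `m u ≠ b` has an inner edge of colour `b`; those inside `U` count twice). Case A:
the colours `m u` are odd. Case B: at least `d + 2 - |U| - (θ + 2 η') d - 2` colours have `N b` odd, at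
most `|U|` of them change. -/
def Stmt_PROM1 : Prop :=
  ∀ (δ π θ η' : ℝ), 0 < δ → δ ≤ 1 / 1000 → 0 < π → π < 1 / 3 → 0 < θ → θ ≤ 1 / 100 → 0 < η' →
    η' ≤ 1 / 1000 → ∃ d0 : ℕ,
    ∀ {V : Type u} [Fintype V] {k : ℕ} (G : SimpleGraph V) (d : ℕ) (Y U Z : Finset V)
      (E : V → Finset (Fin k)) (K0 : Finset (Fin k)) (C : Fin 3 → Finset (Fin k)) (p : V → Fin 3)
      (cR : V → Fin k), d0 ≤ d → K0.card = d + 2 → Y.card < d → (1 - θ) * d ≤ (Y.card : ℝ) →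
      (∀ v ∈ Y, (1 - θ) * d ≤ ((nb G v ∩ Y).card : ℝ)) →
      (∀ v ∈ Y, (E v).card + (nb G v ∩ Y).card = d) → (∀ v ∈ Y, E v ⊆ K0) → U ⊆ Y →
      ((U.card : ℝ) ≤ η' * d) → (∀ u ∈ U, cR u ∈ K0 ∧ cR u ∉ E u) → Set.InjOn cR (U : Set V) →
      (∀ j, ((C j).card : ℝ) ≤ π * d + 1) → (((Y ∩ Z).card : ℝ) ≤ δ * d) →
      (∀ v ∈ Y, v ∉ Z → Disjoint (E v) (C (p v))) → (∀ i j, i ≠ j → Disjoint (C i) (C j)) →
      (∀ b, (((Y.filter (fun v => v ∉ Z ∧ b ∈ E v)).card : ℝ) ≤ δ * d)) →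
      (∀ i, ((Y.filter (fun v => p v = i)).card : ℝ) ≤ Y.card / 3 + 2 * δ * d) →
      ∃ s : V → V → Fin k, (∀ u ∈ U, ∀ v ∈ U, G.Adj u v → s u v = s v u) ∧
        (∀ u ∈ U, ∀ v ∈ Y, G.Adj u v → s u v ∈ K0 ∧ s u v ∉ E u ∧ s u v ∉ E v ∧ s u v ≠ cR u ∧
          (v ∉ U → v ∉ Z → s u v ∉ C (p v))) ∧
        (∀ u ∈ U, Set.InjOn (s u) ((nb G u ∩ Y : Finset V) : Set V)) ∧
        (∀ v ∈ Y, v ∉ U → Set.InjOn (fun u => s u v) ((nb G v ∩ U : Finset V) : Set V)) ∧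
        U.card ≤ ((K0 \ U.image cR).filter (fun b => Odd ((Y \ U).filter (fun v => b ∉ E v ∧
          ∀ u ∈ U, G.Adj u v → s u v ≠ b)).card)).card

/-- PROM (from PROM1): all spots. -/
def Stmt_PROM : Prop :=
  ∀ (δ π θ η' e : ℝ), 0 < δ → δ ≤ 1 / 1000 → 1 / 4 ≤ π → π < 1 / 3 → 0 < θ → θ ≤ 1 / 100 →
    0 < η' → η' ≤ 1 / 1000 → ∃ d0 : ℕ,
    ∀ {V : Type u} [Fintype V] {k : ℕ} (η : ℝ) (G : SimpleGraph V) (d : ℕ)
      (Ys : Finset (Finset V)) (U : Finset V) (c0 tu cc cR : V → Fin k) (t : V → V → Fin k)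
      (E : V → Finset (Fin k)) (K0 : Finset (Fin k)) (C : Fin 3 → Finset (Fin k)) (p : V → Fin 3)
      (a : V → Bool) (Z : Finset V), d0 ≤ d → SpR θ η G d Ys →
      (∀ j, ((C j).card : ℝ) ≤ π * d + 1) →
      Out δ π G (Gex G Ys) ⊥ ⊥ d Ys ∅ c0 tu cc t E K0 C p a Z →
      RsQ η' e G d Ys U cR cc E K0 →
      ∃ (t2 : V → V → Fin k) (E2 : V → Finset (Fin k)),
        Out (δ + 2 * η') π G (Gex G (Ys2 Ys U)) ⊥ ⊥ d (Ys2 Ys U) ∅ c0 tu (cc2 U cR cc) t2 E2 K0 C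
          p a Z ∧
        (∀ v, InS Ys v → v ∉ U → E v ⊆ E2 v) ∧
        (∀ Y ∈ Ys, ∀ b, (((Y \ U).filter (fun v => b ∈ E2 v ∧ b ∉ E v)).card ≤ (Y ∩ U).card)) ∧
        ∀ Y ∈ shs d Ys, (Y ∩ U).card ≤ ((K0 \ FyR Ys U cR (Y \ U)).filter
          (fun b => Odd ((Y \ U).filter (fun v => b ∉ E2 v)).card)).card

/-- FINR (from VMIX and FIN, `UH = ∅`, `EH = ⊥`, no pairs; compare FINQ). -/
def Stmt_FINR : Prop :=
  ∃ (π δ θ : ℝ), 1 / 4 ≤ π ∧ π < 1 / 3 ∧ 0 < δ ∧ 0 < θ ∧ θ ≤ 1 / 100 ∧ ∀ x : ℝ, 0 < x → x ≤ θ →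
    ∃ (η : ℝ) (d0 : ℕ), 0 < η ∧
    ∀ {V : Type u} [Fintype V] {k : ℕ} (G : SimpleGraph V) (d : ℕ)
      (Ys : Finset (Finset V)) (c0 tu cc : V → Fin k) (t : V → V → Fin k)
      (E : V → Finset (Fin k)) (K0 : Finset (Fin k)) (C : Fin 3 → Finset (Fin k)) (p : V → Fin 3)
      (a : V → Bool) (Z : Finset V) (Fy : Finset V → Finset (Fin k)), d0 ≤ d →
      SpR θ η G d Ys → (∀ j, ((C j).card : ℝ) ≤ π * d + 1) →
      Out δ π G (Gex G Ys) ⊥ ⊥ d Ys ∅ c0 tu cc t E K0 C p a Z →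
      (∀ Y ∈ shs d Ys, Fy Y ⊆ K0 ∧ (Fy Y).card + Y.card ≤ d + 2 ∧
        ((Fy Y).card : ℝ) ≤ 10 * η * d ∧
        (Fy Y).card ≤ ((K0 \ Fy Y).filter
          (fun b => Odd (Y.filter (fun v => b ∉ E v)).card)).card ∧
        ∀ b ∈ K0, b ∉ Fy Y → x * d ≤ ((avl G Ys ∅ cc E Y b).card : ℝ)) →
      ∃ (c' : V → Fin k) (t3 : V → V → Fin k), Tot G c' t3

/-- KR (from SSE3, PROM, FINR): everything that has to be known about the spots. -/
def Stmt_KR : Prop :=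
  ∃ (π θ : ℝ), 1 / 4 ≤ π ∧ π < 1 / 3 ∧ 0 < θ ∧ θ ≤ 1 / 100 ∧
    ∀ ζ : ℝ, 0 < ζ → ζ ≤ 1 → ∃ (δ e θ' η η' : ℝ) (d0 : ℕ), 0 < δ ∧ 0 < e ∧ 0 < θ' ∧ 0 < η ∧
      0 < η' ∧
    ∀ {V : Type u} [Fintype V] {k : ℕ} (τ : ℝ) (G : SimpleGraph V) (d : ℕ)
      (Ys : Finset (Finset V)) (Hs U : Finset V) (c0 tu cc cR : V → Fin k)
      (t : V → V → Fin k) (E : V → Finset (Fin k)) (K0 : Finset (Fin k))
      (C : Fin 3 → Finset (Fin k)) (p : V → Fin 3) (a : V → Bool) (Z : Finset V), d0 ≤ d →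
      Grp θ θ' η G ⊥ d Ys ∅ Hs c0 tu →
      (∀ Y ∈ Ys, ((Y ∩ Hs).card : ℝ) ≤ η * Y.card) → (∀ y ∈ U, y ∉ Hs) →
      Out δ π G (Gxh G Ys Hs) (Grh G ⊥ Ys Hs) ⊥ d Ys ∅ c0 tu cc t E K0 C p a Z →
      (∀ j, ((C j).card : ℝ) ≤ π * d + 1) → OwnR ζ τ e G d Ys U cR cc →
      RsQ η' e G d Ys U cR cc E K0 →
      ∃ (c' : V → Fin k) (t3 : V → V → Fin k), Tot G c' t3

end Pool.Agent.Work.MP_db9399_kr
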